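import Pool.Agent.K1H65.SO.AnVoc

/-!
# Categoricity of complete second-order theories with definable axiomatizations under `V = L`

Q1 (Solovay): assume `V = L`; every complete, recursively axiomatized second-order theory is
categorical. Here this is proved for a much larger class of axiomatizations.

* `HH c`, for an infinite cardinal `c`: the class `H(c⁺)` of the sets that are hereditarily of
  cardinality at most `c`; `DefAt c C`: the set `C` of natural numbers is definable without
  parameters over `(HH c, ∈)`.
* `VDefAx T`: the theory `T` has the same models as some set of sentences whose Goedel numbers form
  a set that is definable without parameters over `H(|A|⁺)`, for each infinite model `A` of `T`.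
* `VAnAx T`: the same with an analytical set of Goedel numbers, i.e. one that is definable without
  parameters over the class `HH ℵ₀ = H(ω₁)` of the hereditarily countable sets.
* `Voc.RecAx T`: the same with a recursive set of Goedel numbers.

The starting library `R587` proves the categoricity for recursively axiomatized theories in
relational vocabularies (`R587.categorical_of_VLv`) and reduces function symbols to relation symbols
(`R587.Voc.reduce`). New here: the axioms need only be definable over `H(|A|⁺)`; recursive sets and
analytical sets are definable there; the reduction of function symbols keeps this.
-/

set_option autoImplicit false

namespace Pool.Agent.Results.MP_cba9f6_lc.DefinableTheoriesVL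

open Pool.Agent.R587
open Pool.Agent.K1H65.SO

/-- Assume the axiom of constructibility `V = L`. Then every complete second-order theory (full
semantics, in a finite vocabulary with relation, function and constant symbols) with a definable
axiomatization is categorical. Analytical axiomatizations are definable, and recursive
axiomatizations are analytical; so every complete, recursively axiomatized second-order theory is
categorical. -/
theorem result (hV : VL) {m l : ℕ} (ar : Fin m → ℕ) (af : Fin l → ℕ) (T : Set (Voc.Fo ar af))
    (hT : Voc.IsTheory T) (hc : Voc.CompleteT T) :
    (Voc.RecAx T → Voc.CategoricalT T) ∧ (VDefAx T → Voc.CategoricalT T) ∧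
      (Voc.RecAx T → VAnAx T) ∧ (VAnAx T → VDefAx T) := by
  have _ := hT
  exact ⟨fun h => categorical_VL hV hc (vDefAx_of_vAnAx (vAnAx_of_recAx h)),
    fun h => categorical_VL hV hc h, vAnAx_of_recAx, vDefAx_of_vAnAx⟩

end Pool.Agent.Results.MP_cba9f6_lc.DefinableTheoriesVL
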